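import Mathlib

set_option autoImplicit false

namespace Pool.Agent.Results.MP_81a4f1_co.Counterexample

open SimpleGraph

/-- The local independence number `l(v)`: the independence number of the subgraph induced on the
open neighbourhood of `v`. -/
noncomputable def localIndep {V : Type} (G : SimpleGraph V) (v : V) : ℕ :=
  (G.induce (G.neighborSet v)).indepNum

/-- `lambda_max(G)`: the maximum of the local independence numbers. -/
noncomputable def lambdaMax {V : Type} [Fintype V] (G : SimpleGraph V) : ℕ :=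
  Finset.univ.sup (fun v => localIndep G v)

/-- `f(G)`: the number of vertices whose local independence number is `lambda_max(G)`. -/
noncomputable def freq {V : Type} [Fintype V] (G : SimpleGraph V) : ℕ :=
  Nat.card {v : V // localIndep G v = lambdaMax G}

/-- adjacency on values -/
def adjV (i j : ℕ) : Prop :=
  i ≠ j ∧ ((3 ≤ i ∧ 3 ≤ j ∧ (6 ≤ i ∨ 6 ≤ j)) ∨ (i = 2 ∧ (j ≤ 1 ∨ 5 ≤ j)) ∨
    (j = 2 ∧ (i ≤ 1 ∨ 5 ≤ i)))

/-- The counterexample graph. -/
def cex (n : ℕ) : SimpleGraph (Fin n) where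
  Adj i j := adjV i.val j.val
  symm := ⟨by
    intro i j h
    unfold adjV at *
    omega⟩
  loopless := ⟨by
    intro i h
    unfold adjV at h
    omega⟩

lemma cex_adj {n : ℕ} (i j : Fin n) : (cex n).Adj i j ↔ adjV i.val j.val := Iff.rfl

/-- colouring of the neighbourhood by three cliques -/
def cov (v x : ℕ) : Fin 3 :=
  if v = 2 then (if x = 0 then 0 else if x = 1 then 1 else 2)
  else (if x = 4 then 1 else if x = 2 ∨ x = 5 then 2 else 0)

lemma cov_spec {v x y : ℕ} (hx : adjV v x) (hy : adjV v y) (hne : x ≠ y)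
    (h : cov v x = cov v y) : adjV x y := by
  unfold adjV at *
  unfold cov at h
  split_ifs at h <;> omega

lemma localIndep_le {n : ℕ} (v : Fin n) : localIndep (cex n) v ≤ 3 := by
  unfold localIndep
  obtain ⟨s, hs⟩ := ((cex n).induce ((cex n).neighborSet v)).exists_isNIndepSet_indepNum
  rw [← hs.card_eq]
  have hinj : Set.InjOn (fun x : (cex n).neighborSet v => cov v.val x.val.val) (s : Set _) := by
    intro x hx y hy hxy
    by_contra hne
    have hind := hs.isIndepSet hx hy hne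
    apply hind
    have h1 : adjV v.val x.val.val := x.property
    have h2 : adjV v.val y.val.val := y.property
    have h3 : x.val.val ≠ y.val.val := by
      intro h
      exact hne (Subtype.ext (Fin.ext h))
    exact cov_spec h1 h2 h3 hxy
  calc s.card = (s.image (fun x : (cex n).neighborSet v => cov v.val x.val.val)).card :=
        (Finset.card_image_of_injOn hinj).symm
    _ ≤ (Finset.univ : Finset (Fin 3)).card := Finset.card_le_univ _
    _ = 3 := by simp

lemma le_localIndep {n : ℕ} (v : Fin n) (a b c : Fin n)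
    (hab : a ≠ b) (hac : a ≠ c) (hbc : b ≠ c)
    (ha : (cex n).Adj v a) (hb : (cex n).Adj v b) (hc : (cex n).Adj v c)
    (nab : ¬ (cex n).Adj a b) (nac : ¬ (cex n).Adj a c) (nbc : ¬ (cex n).Adj b c) :
    3 ≤ localIndep (cex n) v := by
  classical
  unfold localIndep
  let a' : (cex n).neighborSet v := ⟨a, ha⟩
  let b' : (cex n).neighborSet v := ⟨b, hb⟩
  let c' : (cex n).neighborSet v := ⟨c, hc⟩
  have h1 : a' ≠ b' := fun h => hab (congrArg Subtype.val h)
  have h2 : a' ≠ c' := fun h => hac (congrArg Subtype.val h)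
  have h3 : b' ≠ c' := fun h => hbc (congrArg Subtype.val h)
  have hcard : ({a', b', c'} : Finset ((cex n).neighborSet v)).card = 3 :=
    Finset.card_eq_three.mpr ⟨a', b', c', h1, h2, h3, rfl⟩
  rw [← hcard]
  apply IsIndepSet.card_le_indepNum
  rw [isIndepSet_iff]
  have nba : ¬ (cex n).Adj b a := fun h => nab h.symm
  have nca : ¬ (cex n).Adj c a := fun h => nac h.symm
  have ncb : ¬ (cex n).Adj c b := fun h => nbc h.symm
  intro x hx y hy hxy
  simp only [Finset.coe_insert, Finset.coe_singleton, Set.mem_insert_iff,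
    Set.mem_singleton_iff] at hx hy
  rcases hx with rfl | rfl | rfl <;> rcases hy with rfl | rfl | rfl <;>
    first
      | exact absurd rfl hxy
      | assumption

lemma localIndep_eq {n : ℕ} (hn : 16 ≤ n) (v : Fin n) (hv : v.val = 2 ∨ 6 ≤ v.val) :
    localIndep (cex n) v = 3 := by
  apply le_antisymm (localIndep_le v)
  rcases hv with hv | hv
  · refine le_localIndep v ⟨0, by omega⟩ ⟨1, by omega⟩ ⟨6, by omega⟩ ?_ ?_ ?_ ?_ ?_ ?_ ?_ ?_ ?_ <;>
      simp [cex_adj, adjV, hv]
  · refine le_localIndep v ⟨3, by omega⟩ ⟨4, by omega⟩ ⟨5, by omega⟩ ?_ ?_ ?_ ?_ ?_ ?_ ?_ ?_ ?_ <;>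
      simp [cex_adj, adjV] <;> omega

lemma lambdaMax_eq {n : ℕ} (hn : 16 ≤ n) : lambdaMax (cex n) = 3 := by
  unfold lambdaMax
  apply le_antisymm
  · apply Finset.sup_le
    intro v _
    exact localIndep_le v
  · rw [← localIndep_eq hn ⟨2, by omega⟩ (Or.inl rfl)]
    exact Finset.le_sup (f := fun v => localIndep (cex n) v) (Finset.mem_univ _)

lemma freq_ge {n : ℕ} (hn : 16 ≤ n) : n ≤ freq (cex n) + 5 := by
  classical
  unfold freq
  rw [Nat.card_eq_fintype_card, Fintype.card_subtype]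
  have hsub : (Finset.univ : Finset (Fin n)) \
      {⟨0, by omega⟩, ⟨1, by omega⟩, ⟨3, by omega⟩, ⟨4, by omega⟩, ⟨5, by omega⟩} ⊆
      Finset.univ.filter (fun v : Fin n => localIndep (cex n) v = lambdaMax (cex n)) := by
    intro v hv
    simp only [Finset.mem_sdiff, Finset.mem_univ, Finset.mem_insert, Finset.mem_singleton,
      true_and, not_or, Fin.ext_iff] at hv
    simp only [Finset.mem_filter, Finset.mem_univ, true_and]
    rw [lambdaMax_eq hn]
    apply localIndep_eq hn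
    omega
  have h1 := Finset.card_le_card hsub
  have h2 := Finset.le_card_sdiff
    ({⟨0, by omega⟩, ⟨1, by omega⟩, ⟨3, by omega⟩, ⟨4, by omega⟩, ⟨5, by omega⟩} : Finset (Fin n))
    (Finset.univ : Finset (Fin n))
  have h3 : ({⟨0, by omega⟩, ⟨1, by omega⟩, ⟨3, by omega⟩, ⟨4, by omega⟩, ⟨5, by omega⟩} :
      Finset (Fin n)).card ≤ 5 := Finset.card_le_five
  rw [Finset.card_univ, Fintype.card_fin] at h2
  omega

lemma nonadj_cases {x y : ℕ} (hne : x ≠ y) (h : ¬ adjV x y) :
    (x = 0 ∧ y ≠ 0 ∧ y ≠ 2) ∨ (y = 0 ∧ x ≠ 0 ∧ x ≠ 2) ∨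
    (x = 1 ∧ y ≠ 0 ∧ y ≠ 1 ∧ y ≠ 2) ∨ (y = 1 ∧ x ≠ 0 ∧ x ≠ 1 ∧ x ≠ 2) ∨
    (x = 3 ∧ y = 4) ∨ (x = 4 ∧ y = 3) ∨ (x = 3 ∧ y = 5) ∨ (x = 5 ∧ y = 3) ∨
    (x = 4 ∧ y = 5) ∨ (x = 5 ∧ y = 4) ∨ (x = 2 ∧ y = 3) ∨ (x = 3 ∧ y = 2) ∨
    (x = 2 ∧ y = 4) ∨ (x = 4 ∧ y = 2) := by
  unfold adjV at h
  by_cases hx0 : x = 0
  · exact Or.inl ⟨hx0, by omega, by omega⟩
  by_cases hy0 : y = 0
  · exact Or.inr (Or.inl ⟨hy0, by omega, by omega⟩)
  by_cases hx1 : x = 1
  · exact Or.inr (Or.inr (Or.inl ⟨hx1, by omega, by omega, by omega⟩))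
  by_cases hy1 : y = 1
  · exact Or.inr (Or.inr (Or.inr (Or.inl ⟨hy1, by omega, by omega, by omega⟩)))
  iterate 4 right
  have hx5 : x ≤ 5 := by omega
  have hy5 : y ≤ 5 := by omega
  interval_cases x <;> interval_cases y <;> simp_all

lemma compl_subset {n : ℕ} (z o t c3 c4 c5 : Fin n) (hz : z.val = 0) (ho : o.val = 1)
    (ht : t.val = 2) (h3 : c3.val = 3) (h4 : c4.val = 4) (h5 : c5.val = 5) :
    (cex n)ᶜ.edgeSet ⊆
      ((((Finset.univ : Finset (Fin n)) \ {z, t}).image (fun x => s(z, x)) ∪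
        ((Finset.univ : Finset (Fin n)) \ {z, o, t}).image (fun x => s(o, x)) ∪
        {s(c3, c4), s(c3, c5), s(c4, c5), s(t, c3), s(t, c4)} : Finset (Sym2 (Fin n))) :
        Set (Sym2 (Fin n))) := by
  intro e
  induction e with
  | _ x y =>
    intro he
    rw [mem_edgeSet, compl_adj, cex_adj] at he
    obtain ⟨hne, hna⟩ := he
    have hne' : x.val ≠ y.val := fun h => hne (Fin.ext h)
    have hc := nonadj_cases hne' hna
    clear hna hne'
    rw [← hz, ← ho, ← ht, ← h3, ← h4, ← h5] at hc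
    simp only [← Fin.ext_iff, ne_eq] at hc
    simp only [Finset.coe_union, Set.mem_union, Finset.mem_coe, Finset.mem_image,
      Finset.mem_sdiff, Finset.mem_univ, Finset.mem_insert, Finset.mem_singleton, true_and,
      not_or]
    rcases hc with ⟨h1, h2, h3⟩ | ⟨h1, h2, h3⟩ | ⟨h1, h2, h3, h4⟩ | ⟨h1, h2, h3, h4⟩ |
      ⟨h1, h2⟩ | ⟨h1, h2⟩ | ⟨h1, h2⟩ | ⟨h1, h2⟩ | ⟨h1, h2⟩ | ⟨h1, h2⟩ |
      ⟨h1, h2⟩ | ⟨h1, h2⟩ | ⟨h1, h2⟩ | ⟨h1, h2⟩
    · exact Or.inl (Or.inl ⟨y, ⟨h2, h3⟩, by rw [h1]⟩)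
    · exact Or.inl (Or.inl ⟨x, ⟨h2, h3⟩, by rw [h1, Sym2.eq_swap]⟩)
    · exact Or.inl (Or.inr ⟨y, ⟨h2, h3, h4⟩, by rw [h1]⟩)
    · exact Or.inl (Or.inr ⟨x, ⟨h2, h3, h4⟩, by rw [h1, Sym2.eq_swap]⟩)
    all_goals
      right
      rw [h1, h2]
      first
        | (left; rfl)
        | (left; exact Sym2.eq_swap)
        | (right; left; rfl)
        | (right; left; exact Sym2.eq_swap)
        | (right; right; left; rfl)
        | (right; right; left; exact Sym2.eq_swap)
        | (right; right; right; left; rfl)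
        | (right; right; right; left; exact Sym2.eq_swap)
        | (right; right; right; right; rfl)
        | (right; right; right; right; exact Sym2.eq_swap)

lemma compl_card {n : ℕ} (hn : 16 ≤ n) : (cex n)ᶜ.edgeSet.ncard ≤ 2 * n := by
  classical
  obtain ⟨z, hz⟩ : ∃ z : Fin n, z.val = 0 := ⟨⟨0, by omega⟩, rfl⟩
  obtain ⟨o, ho⟩ : ∃ z : Fin n, z.val = 1 := ⟨⟨1, by omega⟩, rfl⟩
  obtain ⟨t, ht⟩ : ∃ z : Fin n, z.val = 2 := ⟨⟨2, by omega⟩, rfl⟩
  obtain ⟨c3, h3⟩ : ∃ z : Fin n, z.val = 3 := ⟨⟨3, by omega⟩, rfl⟩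
  obtain ⟨c4, h4⟩ : ∃ z : Fin n, z.val = 4 := ⟨⟨4, by omega⟩, rfl⟩
  obtain ⟨c5, h5⟩ : ∃ z : Fin n, z.val = 5 := ⟨⟨5, by omega⟩, rfl⟩
  have hsub := compl_subset z o t c3 c4 c5 hz ho ht h3 h4 h5
  have hzt : z ≠ t := fun h => by rw [h, ht] at hz; omega
  have hzo : z ≠ o := fun h => by rw [h, ho] at hz; omega
  have hot : o ≠ t := fun h => by rw [h, ht] at ho; omega
  have hA : (((Finset.univ : Finset (Fin n)) \ {z, t}).image (fun x => s(z, x))).card ≤ n - 2 := by
    refine Finset.card_image_le.trans ?_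
    rw [Finset.card_sdiff_of_subset (Finset.subset_univ _), Finset.card_univ, Fintype.card_fin,
      Finset.card_pair hzt]
  have hB : (((Finset.univ : Finset (Fin n)) \ {z, o, t}).image (fun x => s(o, x))).card
      ≤ n - 3 := by
    refine Finset.card_image_le.trans ?_
    rw [Finset.card_sdiff_of_subset (Finset.subset_univ _), Finset.card_univ, Fintype.card_fin]
    rw [Finset.card_eq_three.mpr ⟨z, o, t, hzo, hzt, hot, rfl⟩]
  have hC : ({s(c3, c4), s(c3, c5), s(c4, c5), s(t, c3), s(t, c4)} :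
      Finset (Sym2 (Fin n))).card ≤ 5 := Finset.card_le_five
  refine (Set.ncard_le_ncard hsub (Finset.finite_toSet _)).trans ?_
  rw [Set.ncard_coe_finset]
  refine (Finset.card_union_le _ _).trans ?_
  have := Finset.card_union_le
    (((Finset.univ : Finset (Fin n)) \ {z, t}).image (fun x => s(z, x)))
    (((Finset.univ : Finset (Fin n)) \ {z, o, t}).image (fun x => s(o, x)))
  omega

lemma cex_connected {n : ℕ} (hn : 16 ≤ n) : (cex n).Connected := by
  have h6 : ∀ v : Fin n, (cex n).Reachable v ⟨6, by omega⟩ := by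
    have h2 : (cex n).Reachable ⟨2, by omega⟩ ⟨6, by omega⟩ := by
      apply Adj.reachable
      simp [cex_adj, adjV]
    intro v
    by_cases hv : v.val ≤ 1
    · refine Reachable.trans ?_ h2
      apply Adj.reachable
      show adjV v.val 2
      unfold adjV
      omega
    by_cases hv2 : v.val = 2
    · have : v = ⟨2, by omega⟩ := Fin.ext hv2
      rw [this]
      exact h2
    by_cases hv6 : v.val = 6
    · have : v = ⟨6, by omega⟩ := Fin.ext hv6
      rw [this]
    · apply Adj.reachable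
      show adjV v.val 6
      unfold adjV
      omega
  have : Nonempty (Fin n) := ⟨⟨6, by omega⟩⟩
  exact Connected.mk (fun u v => (h6 u).trans (h6 v).symm)

lemma cex_no_ham {n : ℕ} (hn : 16 ≤ n) :
    ¬ ∃ (u v : Fin n) (p : (cex n).Walk u v), p.IsHamiltonian := by
  rintro ⟨u, v, p, hp⟩
  have hlen : p.length = n - 1 := by
    have := hp.length_eq
    simpa using this
  have hpath := hp.isPath
  -- positions
  have hpos : ∀ w : Fin n, ∃ i, i ≤ p.length ∧ p.getVert i = w := by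
    intro w
    have := hp.mem_support w
    rw [Walk.mem_support_iff_exists_getVert] at this
    obtain ⟨i, hi, hle⟩ := this
    exact ⟨i, hle, hi⟩
  obtain ⟨i, hi, hi0⟩ := hpos ⟨0, by omega⟩
  obtain ⟨j, hj, hj0⟩ := hpos ⟨1, by omega⟩
  obtain ⟨k, hk, hk0⟩ := hpos ⟨2, by omega⟩
  have hinj := hpath.getVert_injOn
  have key : ∀ (w : Fin n) (a : ℕ), a ≤ p.length → p.getVert a = w → w.val ≤ 1 →
      (a + 1 ≤ p.length → a + 1 = k) ∧ (1 ≤ a → a - 1 = k) := by
    intro w a ha haw hw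
    constructor
    · intro h
      have hadj := p.adj_getVert_succ (show a < p.length by omega)
      rw [haw, cex_adj] at hadj
      have h2 : (p.getVert (a + 1)).val = 2 := by
        unfold adjV at hadj
        omega
      have h3 : p.getVert (a + 1) = p.getVert k := by
        rw [hk0]
        exact Fin.ext h2
      exact hinj h hk h3
    · intro h
      have hadj := p.adj_getVert_succ (show a - 1 < p.length by omega)
      rw [show a - 1 + 1 = a by omega, haw, cex_adj] at hadj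
      have h2 : (p.getVert (a - 1)).val = 2 := by
        unfold adjV at hadj
        omega
      have h3 : p.getVert (a - 1) = p.getVert k := by
        rw [hk0]
        exact Fin.ext h2
      exact hinj (show a - 1 ≤ p.length by omega) hk h3
  have k0 := key _ i hi hi0 (by simp)
  have k1 := key _ j hj hj0 (by simp)
  have hij : i ≠ j := by
    intro h
    rw [h, hj0] at hi0
    simp at hi0
  obtain ⟨a1, a2⟩ := k0
  obtain ⟨b1, b2⟩ := k1
  omega

/-- For every `n ≥ 16` there is a connected graph on `n` vertices with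
`(1/6) (1 + 2 |E(complement of G)|) ≤ f(G)` and with no Hamiltonian path. -/
theorem result : ∀ n : ℕ, 16 ≤ n → ∃ G : SimpleGraph (Fin n), G.Connected ∧
    (1 / 6 : ℝ) * (1 + 2 * (Gᶜ.edgeSet.ncard : ℝ)) ≤ (freq G : ℝ) ∧
    ¬ ∃ (u v : Fin n) (p : G.Walk u v), p.IsHamiltonian := by
  intro n hn
  refine ⟨cex n, cex_connected hn, ?_, cex_no_ham hn⟩
  have h1 := compl_card hn
  have h2 := freq_ge hn
  have h3 : 1 + 2 * (cex n)ᶜ.edgeSet.ncard ≤ 6 * freq (cex n) := by omega
  have h4 : (1 : ℝ) + 2 * ((cex n)ᶜ.edgeSet.ncard : ℝ) ≤ 6 * (freq (cex n) : ℝ) := by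
    exact_mod_cast h3
  linarith

end Pool.Agent.Results.MP_81a4f1_co.Counterexample
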